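import Pool.Agent.X310.Bmc

/-!
# `MP_f80667_ag`: exactness of the Brauer–Manin complex, coprime extensions and norm relations

Exactness of the complex for `X` follows from exactness over finite extensions of coprime degrees,
for instance over the residue fields of the closed points of a zero-cycle of degree one; and
exactness over the fields `L^{P_j}` of a partition of a Galois group `Gal(L/F)` and over `F`
bounds the homology over `L`.
-/

set_option autoImplicit false

namespace Pool.Agent.Results.MP_f80667_ag.CoprimeExtensionsNormRelations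

open Pool.Agent.X310.Bmc

theorem result (Q : Type) [AddCommGroup Q] :
    (∀ (C : Complex Q) (J : Type) (s : Finset J) (C' : J → Complex Q)
      (E : ∀ j, Extension C (C' j)) (d c : J → ℤ), (∀ j ∈ s, (E j).HasDegree (d j)) →
      ∑ j ∈ s, c j * d j = 1 → (∀ j ∈ s, (C' j).Exact) → C.Exact) ∧
    (∀ (C C' : Complex Q) (E : Extension C C') (d : ℤ), E.HasDegree d → C'.Exact →
      C.KilledBy d) ∧
    (∀ (G : Type) [Group G] [Fintype G] [DecidableEq G] (C' : Complex Q)
      (act : G → C'.B →+ C'.B), (∀ z, act 1 z = z) →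
      ∀ (J : Type) [Fintype J] (P : J → Finset G), (∀ j, (1 : G) ∈ P j) →
      (∀ g : G, g ≠ 1 → ∃! j, g ∈ P j) →
      ∀ (C : J → Complex Q) (E : ∀ j, Extension (C j) C'),
      (∀ j, (E j).IsGaloisWith act (P j)) →
      ∀ (C₀ : Complex Q) (E₀ : Extension C₀ C'), E₀.IsGaloisWith act Finset.univ →
      (∀ j, (C j).Exact) → C₀.Exact → C'.KilledBy ((Fintype.card J : ℤ) - 1)) :=
  ⟨fun C _ s _ E d c hd hc hex =>
      killedBy_finset s C d (fun j hj => killedBy_degree (E j) (hd j hj) (hex j hj)) c hc,
    fun _ _ E _ hd hex => killedBy_degree E hd hex,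
    fun _ _ _ _ _ act h1 _ _ P hP1 hP C E hE C₀ E₀ hE₀ hex hex₀ =>
      killedBy_partition act h1 P hP1 hP C E hE C₀ E₀ hE₀ hex hex₀⟩

end Pool.Agent.Results.MP_f80667_ag.CoprimeExtensionsNormRelations
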