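import Pool.Agent.X290.Reg.Ex
import Pool.Agent.X290.Reg.Sha
/-!
# The `p`-primary part of the Tate-Shafarevich group of abelian varieties with good reduction outside `p`

Let `K` be a number field and `K'/K` a finite Galois extension such that `K'` has exactly one prime
above `p` and no Galois extension of `p`-power degree, other than itself, which is unramified at all
finite primes (for `K = ℚ`: `K' = ℚ(i)` for `p = 2`, `K' = ℚ(ζ_p)` for `p = 3, 5, 7`). Let `M` be a
discrete module for `G_K` with the following properties of the group of points over `Kbar` of an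
abelian variety over `K` with good reduction outside `p`, for which the Galois group of the field of
`p`-torsion points over `K'` is a `p`-group: `M` is `p`-divisible; if `p^n y` is fixed by an inertia
group outside `p`, so is `y`; every element of `G_{K'}` acts on every `y` with `p y = 0` through an
element of `p`-power order. If for all `n` the group of points over the completion at `p`, modulo the
rational points and `p^n`-multiples, has at most `N` elements, then there are at most `N` classes of
`p`-power order in `H^1(G_K, M)` which are trivial on the decomposition group at `p` and on the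
inertia groups at all other primes; so the `p`-primary part of the Tate-Shafarevich group is finite.
-/

set_option autoImplicit false

open NumberField

namespace Pool.Agent.Results.MP_f80667_ag.ShaOfJacobiansAtP

/-- The absolute Galois group of `K`. -/
abbrev G (K : Type) [Field K] : Type := Gal(AlgebraicClosure K/K)

/-- The ring of all algebraic integers. -/
abbrev Z (K : Type) [Field K] : Type := 𝓞 (AlgebraicClosure K)

/-- The field `M` (with all number fields `M'` isomorphic to it) has no Galois extension of degree a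
power of `p`, different from `1`, which is unramified at all maximal ideals. -/
def NoUnramified (p : ℕ) (M : Type) [Field M] : Prop :=
  ∀ (M' L : Type) [Field M'] [NumberField M'] [Field L] [NumberField L] [Algebra M' L]
    [IsGalois M' L], Nonempty (M' ≃+* M) →
    (∀ (Q : Ideal (𝓞 L)) [Q.IsMaximal], Algebra.IsUnramifiedAt (𝓞 M') Q) →
      ∀ k : ℕ, Module.finrank M' L = p ^ k → k = 0

/-- There is at most one maximal ideal above `p`. -/
def OnePrime (p : ℕ) (M : Type) [Field M] : Prop :=
  ∀ P Q : Ideal (𝓞 M), P.IsMaximal → Q.IsMaximal → (p : 𝓞 M) ∈ P → (p : 𝓞 M) ∈ Q → P = Q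

/-- The conditions on the field `K'`. -/
def Base {K : Type} [Field K] (p : ℕ) (K' : IntermediateField K (AlgebraicClosure K)) : Prop :=
  FiniteDimensional K K' ∧ IsGalois K K' ∧ NoUnramified p K' ∧ OnePrime p K'

variable {K : Type} [Field K]

/-- The inertia group at the prime ideal `P` of the ring of all algebraic integers. -/
def Inertia (P : Ideal (Z K)) : Set (G K) := {τ | ∀ x : Z K, τ • x - x ∈ P}

/-- The decomposition group at the prime ideal `P` of the ring of all algebraic integers. -/
def Decomposition (P : Ideal (Z K)) : Set (G K) := {g | ∀ x : Z K, g • x ∈ P ↔ x ∈ P}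

variable (M : Type) [AddCommGroup M] [DistribMulAction (G K) M]

/-- The rational points of `M`. -/
def Rational : Set M := {y | ∀ g : G K, g • y = y}

/-- The points over the completion at `P`. -/
def Local (P : Ideal (Z K)) : Set M := {y | ∀ d ∈ Decomposition P, d • y = y}

/-- The conditions on the Galois module `M`: it is discrete and `p`-divisible; if `p ^ n • y` is fixed
by an inertia group outside `p`, then `y` is; the elements of `Gal(Kbar/K')` act on the `p`-torsion
points through elements of `p`-power order. -/
def PointsLike (p : ℕ) (K' : IntermediateField K (AlgebraicClosure K)) : Prop :=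
  (∀ y : M, IsOpen (MulAction.stabilizer (G K) y : Set (G K))) ∧ (∀ y : M, ∃ z : M, p • z = y) ∧
  (∀ Q : Ideal (Z K), Q.IsMaximal → (p : Z K) ∉ Q → ∀ (n : ℕ) (y : M),
    (∀ τ ∈ Inertia Q, τ • (p ^ n • y) = p ^ n • y) → ∀ τ ∈ Inertia Q, τ • y = y) ∧
  ∀ y : M, p • y = 0 → ∀ u ∈ K'.fixingSubgroup, ∃ k : ℕ, u ^ p ^ k • y = y

variable {M}

/-- `c` is a coboundary on the set `T`. -/
def Coboundary (c : G K → M) (T : Set (G K)) : Prop := ∃ y : M, ∀ g ∈ T, c g = g • y - y

/-- `c` is a cocycle, continuous for the discrete topology of `M`, whose class is killed by a power of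
`p`, trivial on the decomposition group at `P`, and trivial on the inertia groups outside `p`. -/
def ShaCocycle (p : ℕ) (P : Ideal (Z K)) (c : G K → M) : Prop :=
  (∀ y : M, IsOpen (c ⁻¹' {y})) ∧ (∀ g h, c (g * h) = c g + g • c h) ∧
  (∃ n : ℕ, Coboundary (fun g => p ^ n • c g) Set.univ) ∧ Coboundary c (Decomposition P) ∧
  ∀ Q : Ideal (Z K), Q.IsMaximal → (p : Z K) ∉ Q → Coboundary c (Inertia Q)

variable (M)

/-- For all `n` the local points modulo the rational points and `p ^ n`-multiples of local points
have at most `N` classes. -/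
def IndexAtMost (p : ℕ) (P : Ideal (Z K)) (N : ℕ) : Prop :=
  ∀ (n : ℕ) (x : Fin (N + 1) → M), (∀ i, x i ∈ Local M P) → ∃ i j, i ≠ j ∧
    ∃ r ∈ Rational (K := K) M, ∃ w ∈ Local M P, x i - x j = r + p ^ n • w

/-- There are at most `N` cohomology classes of cocycles as above: among `N + 1` cocycles two differ
by a coboundary. -/
def ShaAtMost (p : ℕ) (P : Ideal (Z K)) (N : ℕ) : Prop :=
  ∀ c : Fin (N + 1) → (G K → M), (∀ i, ShaCocycle p P (c i)) → ∃ i j, i ≠ j ∧
    Coboundary (fun g => c i g - c j g) Set.univ

/-- The fields generated by roots of unity of order `3`, `4`, `5`, `12` (for every prime `p`) and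
`7` (for `p = 7`). -/
def Example (p : ℕ) (M : Type) [Field M] [NumberField M] : Prop :=
  IsCyclotomicExtension {3} ℚ M ∨ IsCyclotomicExtension {4} ℚ M ∨ IsCyclotomicExtension {5} ℚ M ∨
    IsCyclotomicExtension {12} ℚ M ∨ (p = 7 ∧ IsCyclotomicExtension {7} ℚ M)

omit [AddCommGroup M] in
/-- The theorem. -/
theorem result :
    (∀ (p : ℕ) [Fact p.Prime] (K : Type) [Field K] [NumberField K]
      (K' : IntermediateField K (AlgebraicClosure K)), Base p K' →
      ∀ P : Ideal (Z K), P.IsMaximal → (p : Z K) ∈ P →
      ∀ (M : Type) [AddCommGroup M] [DistribMulAction (G K) M], PointsLike M p K' →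
        ∀ N : ℕ, IndexAtMost M p P N → ShaAtMost M p P N) ∧
    ∀ p : ℕ, p.Prime → ∀ (M : Type) [Field M] [NumberField M], Example p M → NoUnramified p M := by
  refine ⟨?_, ?_⟩
  · rintro p hpf K _ _ K' ⟨_, _, hNU, hone⟩ P hP hpP M _ _ ⟨hst, hdiv, hur, hpow⟩ N hN c hc
    have e : IntermediateField.fixedField K'.fixingSubgroup = K' :=
      InfiniteGalois.fixedField_fixingSubgroup K'
    have hUn : K'.fixingSubgroup.Normal :=
      (InfiniteGalois.normal_iff_isGalois K').2 inferInstance
    have hUo : IsOpen (K'.fixingSubgroup : Set Gal(AlgebraicClosure K/K)) :=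
      (InfiniteGalois.isOpen_iff_finite K').2 inferInstance
    have hNU' : Pool.Agent.X290.Reg.NoUnrF p
        (IntermediateField.fixedField K'.fixingSubgroup) := by rw [e]; exact hNU
    have hone' : Pool.Agent.X290.Reg.OnePrime p
        (IntermediateField.fixedField K'.fixingSubgroup) := by rw [e]; exact hone
    have hdivn : ∀ (n : ℕ) (y : M), ∃ z : M, p ^ n • z = y := by
      intro n
      induction n with
      | zero => intro y; exact ⟨y, by simp⟩
      | succ n ih =>
        intro y
        obtain ⟨z, hz⟩ := hdiv y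
        obtain ⟨z', hz'⟩ := ih z
        exact ⟨z', by rw [pow_succ', mul_smul, hz', hz]⟩
    have hcom : ∀ (g : G K) (n : ℕ) (y : M), p ^ n • (g • y) = g • (p ^ n • y) :=
      fun g n y => (smul_comm g (p ^ n) y).symm
    choose n hn using fun i => (hc i).2.2.1
    set m := Finset.univ.sup n with hm
    have hy : ∀ i, ∃ y : M, ∀ g, p ^ m • c i g = g • y - y := by
      intro i
      obtain ⟨y, hy⟩ := hn i
      have h5 : n i ≤ m := Finset.le_sup (Finset.mem_univ _)
      obtain ⟨k, hk⟩ := Nat.exists_eq_add_of_le' h5
      refine ⟨p ^ k • y, fun g => ?_⟩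
      rw [hk, pow_add, mul_smul, show p ^ n i • c i g = g • y - y from hy g trivial, smul_sub,
        hcom]
    choose y hy using hy
    choose z hz using fun i => hdivn m (y i)
    choose yP hyP using fun i => (hc i).2.2.2.1
    -- the local points
    have hx : ∀ i, p ^ m • (yP i - z i) ∈ Local M P := by
      intro i d hd
      have h1 : p ^ m • c i d = d • y i - y i := hy i d
      rw [hyP i d hd, ← hz i] at h1
      rw [smul_sub, hcom] at h1
      rw [smul_sub, smul_sub]
      have h2 : d • (p ^ m • yP i) - d • (p ^ m • z i) =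
          (d • (p ^ m • yP i) - p ^ m • yP i) + p ^ m • yP i - d • (p ^ m • z i) := by abel
      rw [h2, h1]
      abel
    obtain ⟨i, j, hij, r, hr, w, hw, hxx⟩ := hN m (fun i => p ^ m • (yP i - z i)) hx
    refine ⟨i, j, hij, ?_⟩
    obtain ⟨y1, hy1⟩ := hdivn m r
    set t : M := (yP i - z i) - (yP j - z j) - w - y1 with ht
    have htn : p ^ m • t = 0 := by
      have h1 : p ^ m • (yP i - z i) - p ^ m • (yP j - z j) = r + p ^ m • w := hxx
      rw [ht, smul_sub, smul_sub, smul_sub (p ^ m) (yP i - z i) (yP j - z j), h1, hy1]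
      abel
    set b : M := z i - z j + y1 with hb
    set C : G K → M := fun g => c i g - c j g - (g • b - b) with hC
    have hC1 : ∀ g h, C (g * h) = C g + g • C h := by
      intro g h
      simp only [hC, (hc i).2.1, (hc j).2.1, mul_smul, smul_sub]
      abel
    have hCn : ∀ g, p ^ m • C g = 0 := by
      intro g
      have h1 := hy i g
      have h2 := hy j g
      have h3 : g • r = r := hr g
      simp only [hC, hb]
      rw [smul_sub, smul_sub, h1, h2, smul_sub, hcom, smul_add, smul_sub, hz, hz, hy1, smul_add,
        smul_sub, h3]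
      abel
    have hC0 : {g : G K | C g = 0} ∈ nhds (1 : G K) := by
      have hone0 : ∀ i, c i 1 = 0 := by
        intro i
        have h1 := (hc i).2.1 1 1
        rw [one_smul, mul_one] at h1
        exact left_eq_add.1 h1
      have h1 : c i ⁻¹' {0} ∈ nhds (1 : G K) := ((hc i).1 0).mem_nhds (hone0 i)
      have h2 : c j ⁻¹' {0} ∈ nhds (1 : G K) := ((hc j).1 0).mem_nhds (hone0 j)
      have h3 : (MulAction.stabilizer (G K) b : Set (G K)) ∈ nhds (1 : G K) :=
        (hst b).mem_nhds (Subgroup.one_mem _)
      refine Filter.mem_of_superset (Filter.inter_mem (Filter.inter_mem h1 h2) h3) ?_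
      rintro g ⟨⟨g1, g2⟩, g3⟩
      have e1 : c i g = 0 := g1
      have e2 : c j g = 0 := g2
      have e3 : g • b = b := g3
      show c i g - c j g - (g • b - b) = 0
      rw [e1, e2, e3]
      abel
    have hCu : ∀ Q : Ideal (Z K), Q.IsMaximal → (p : Z K) ∉ Q → ∀ τ ∈ Inertia Q, C τ = 0 := by
      intro Q hQ hpQ τ hτ
      obtain ⟨a1, ha1⟩ := (hc i).2.2.2.2 Q hQ hpQ
      obtain ⟨a2, ha2⟩ := (hc j).2.2.2.2 Q hQ hpQ
      set Y : M := a1 - a2 - b with hY
      have h1 : ∀ σ ∈ Inertia Q, C σ = σ • Y - Y := by
        intro σ hσ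
        simp only [hC, ha1 σ hσ, ha2 σ hσ, hY, smul_sub]
        abel
      have h2 := hur Q hQ hpQ m Y (fun σ hσ => by
        have h3 := hCn σ
        rw [h1 σ hσ, smul_sub, hcom, sub_eq_zero] at h3
        exact h3) τ hτ
      rw [h1 τ hτ, h2, sub_self]
    have hCP : ∀ d : G K, (∀ x : Z K, d • x ∈ P ↔ x ∈ P) → C d = d • t - t := by
      intro d hd
      have h1 : d • w = w := hw d hd
      simp only [hC, hyP i d hd, hyP j d hd, hb, ht, smul_sub, smul_add, h1]
      abel
    have key := Pool.Agent.X290.Reg.coc_global K'.fixingSubgroup hUo hNU' hone' hP hpP hst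
      (fun Q hQ hpQ n y h τ hτ => hur Q hQ hpQ n y h τ hτ) hpow hC1 m hCn hC0
      (fun Q hQ hpQ τ hτ => hCu Q hQ hpQ τ hτ) t htn hCP
    refine ⟨b + t, fun g _ => ?_⟩
    have h1 := key g
    have h2 : c i g - c j g = C g + (g • b - b) := by simp only [hC]; abel
    have h3 : g • (b + t) = g • b + g • t := smul_add _ _ _
    show c i g - c j g = g • (b + t) - (b + t)
    rw [h2, h1, h3]
    abel
  · rintro p hp M _ _ (h | h | h | h | ⟨rfl, h⟩)
    · exact Pool.Agent.X290.Reg.noUnrF3 hp M
    · exact Pool.Agent.X290.Reg.noUnrF4 hp M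
    · exact Pool.Agent.X290.Reg.noUnrF5 hp M
    · exact Pool.Agent.X290.Reg.noUnrF12 hp M
    · exact Pool.Agent.X290.Reg.noUnrF7 M

end Pool.Agent.Results.MP_f80667_ag.ShaOfJacobiansAtP
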